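import Mathlib
import Pool.Agent.X198.ThreeGH

set_option autoImplicit false

namespace Pool.Agent.Results.MP_c3dba2_gt.BothFail

open Set Metric Pool.Agent.X198.ThreeGH

/-- a correspondence: both projections are surjective -/
def Corr {X Y : Type} (R : Set (X × Y)) : Prop :=
  (∀ x, ∃ y, (x, y) ∈ R) ∧ ∀ y, ∃ x, (x, y) ∈ R

/-- the distortion -/
noncomputable def dis {X Y : Type} [MetricSpace X] [MetricSpace Y] (R : Set (X × Y)) : ℝ :=
  sSup {d | ∃ p ∈ R, ∃ q ∈ R, d = |dist p.1 q.1 - dist p.2 q.2|}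

/-- the Gromov–Hausdorff distance by correspondences -/
noncomputable def dGH (X Y : Type) [MetricSpace X] [MetricSpace Y] : ℝ :=
  1 / 2 * sInf {d | ∃ R : Set (X × Y), Corr R ∧ d = dis R}

/-- an optimal correspondence -/
def Optimal {X Y : Type} [MetricSpace X] [MetricSpace Y] (R : Set (X × Y)) : Prop :=
  Corr R ∧ 1 / 2 * dis R = dGH X Y

/-- the projection to the coordinates `i` and `j` -/
def e {X : Fin 3 → Type} (R : Set (∀ i, X i)) (i j : Fin 3) : Set (X i × X j) :=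
  {p | ∃ f ∈ R, (f i, f j) = p}

/-- The statement (H). -/
def H : Prop :=
  ∀ (X : Fin 3 → Type) [∀ i, MetricSpace (X i)] [∀ i, CompactSpace (X i)] [∀ i, Nonempty (X i)],
    ∃ (Z : Type) (_ : MetricSpace Z) (_ : CompactSpace Z) (φ : ∀ i, X i → Z),
      (∀ i, Isometry (φ i)) ∧
        ∀ i j, hausdorffDist (range (φ i)) (range (φ j)) = dGH (X i) (X j)

/-- The statement (C). -/
def C : Prop :=
  ∀ (X : Fin 3 → Type) [∀ i, MetricSpace (X i)] [∀ i, CompactSpace (X i)] [∀ i, Nonempty (X i)],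
    ∃ R : Set (∀ i, X i), ∀ i j, Optimal (e R i j)

theorem dis_set_finite {i j : Fin 3} (R : Set (X i × X j)) :
    {d | ∃ p ∈ R, ∃ q ∈ R, d = |dist p.1 q.1 - dist p.2 q.2|}.Finite := by
  have h : (range fun z : (X i × X j) × (X i × X j) =>
      |dist z.1.1 z.2.1 - dist z.1.2 z.2.2|).Finite := finite_range _
  refine h.subset ?_
  rintro d ⟨p, -, q, -, rfl⟩
  exact ⟨(p, q), rfl⟩

theorem le_dis {i j : Fin 3} {R : Set (X i × X j)} {p q : X i × X j} (hp : p ∈ R) (hq : q ∈ R) :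
    |dist p.1 q.1 - dist p.2 q.2| ≤ dis R :=
  le_csSup (dis_set_finite R).bddAbove ⟨p, hp, q, hq, rfl⟩

theorem dis_nonneg {X Y : Type} [MetricSpace X] [MetricSpace Y] (R : Set (X × Y)) : 0 ≤ dis R := by
  refine Real.sSup_nonneg ?_
  rintro d ⟨p, -, q, -, rfl⟩
  exact abs_nonneg _

theorem dGH_le (i j : Fin 3) : dGH (X i) (X j) ≤ 1 / 2 := by
  have h0 : BddBelow {d | ∃ R : Set (X i × X j), Corr R ∧ d = dis R} := by
    refine ⟨0, ?_⟩
    rintro d ⟨R, -, rfl⟩
    exact dis_nonneg R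
  have h1 : sInf {d | ∃ R : Set (X i × X j), Corr R ∧ d = dis R} ≤ 1 := by
    refine (csInf_le h0 ⟨{p | p.2 = mtX i j p.1}, ⟨fun x => ⟨mtX i j x, rfl⟩, fun y => ?_⟩, rfl⟩).trans ?_
    · obtain ⟨x, hx⟩ := mtX_surj i j y
      exact ⟨x, hx.symm⟩
    · refine Real.sSup_le ?_ zero_le_one
      rintro d ⟨p, hp, q, hq, rfl⟩
      have hp' : p.2 = mtX i j p.1 := hp
      have hq' : q.2 = mtX i j q.1 := hq
      rw [hp', hq']
      exact mtX_close i j _ _
  unfold dGH
  linarith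

theorem not_C : ¬ C := by
  intro hC
  obtain ⟨R, hR⟩ := hC X
  have hd : ∀ i j, ∀ f ∈ R, ∀ g ∈ R, |dist (f i) (g i) - dist (f j) (g j)| ≤ 1 := by
    intro i j f hf g hg
    have h1 := le_dis (R := e R i j) (p := (f i, f j)) (q := (g i, g j)) ⟨f, hf, rfl⟩ ⟨g, hg, rfl⟩
    have h2 := (hR i j).2
    have h3 := dGH_le i j
    refine h1.trans ?_
    linarith
  have hs : ∀ i, ∀ x : X i, ∃ f ∈ R, f i = x := by
    intro i x
    obtain ⟨y, f, hf, hfe⟩ := (hR i i).1.1 x
    exact ⟨f, hf, congrArg Prod.fst hfe⟩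
  choose f hf hfx using hs 0
  choose g hg hgx using hs 1
  refine key (fun x => f x 1) (fun y => g y 2) (fun x => f x 2) ?_ ?_ ?_ ?_
  · intro x y
    have h := hd 0 1 _ (hf x) _ (hf y)
    rw [hfx, hfx] at h
    exact h.trans_lt (by norm_num)
  · intro x y
    have h := hd 1 2 _ (hg x) _ (hg y)
    rw [hgx, hgx] at h
    exact h.trans_lt (by norm_num)
  · intro x y
    have h := hd 0 2 _ (hf x) _ (hf y)
    rw [hfx, hfx] at h
    exact h.trans_lt (by norm_num)
  · intro x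
    have h := hd 1 2 _ (hf x) _ (hg (f x 1))
    rw [hgx, dist_self, zero_sub, abs_neg, abs_of_nonneg dist_nonneg] at h
    exact h.trans_lt (by norm_num)

theorem not_H : ¬ H := by
  intro hH
  obtain ⟨Z, _, _, φ, hφ, h⟩ := hH X
  exact no_space φ hφ fun i j _ => (h i j).trans_le (dGH_le i j)

/-- **Both (C) and (H) are false; in particular (C) implies (H).** -/
theorem _root_.Pool.Agent.Results.MP_c3dba2_gt.BothFail.result : ¬ C ∧ ¬ H ∧ (C → H) :=
  ⟨not_C, not_H, fun h => absurd h not_C⟩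

end Pool.Agent.Results.MP_c3dba2_gt.BothFail
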